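import Pool.Agent.Helper93.PL.St2

/-!
# Project PL, module IRD: almost all polynomials are irreducible
-/

set_option autoImplicit false

namespace Pool.Agent.Helper78.PL

open Filter Topology
open Pool.Agent.Helper93.PL
open Pool.Agent.Helper61.PV

/-- eventually `log H ≤ H^(1/12)` -/
theorem log_le_rpow : ∃ K : ℕ, ∀ H : ℕ, K ≤ H → Real.log H ≤ (H : ℝ) ^ (1 / 12 : ℝ) := by
  have h1 := (isLittleO_log_rpow_atTop (r := (1 / 12 : ℝ)) (by norm_num)).bound (c := 1) one_pos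
  obtain ⟨x0, hx0⟩ := eventually_atTop.1 h1
  refine ⟨max 1 ⌈x0⌉₊, fun H hH => ?_⟩
  have h2 : x0 ≤ (H : ℝ) := (Nat.le_ceil x0).trans (by exact_mod_cast (le_max_right _ _).trans hH)
  have h3 := hx0 (H : ℝ) h2
  rw [one_mul] at h3
  have h4 : 0 ≤ (H : ℝ) ^ (1 / 12 : ℝ) := Real.rpow_nonneg (Nat.cast_nonneg _) _
  rw [Real.norm_of_nonneg h4] at h3
  exact (le_abs_self _).trans h3

theorem hIrd (hPv : Pool.Agent.Helper61.PV.StFin) : Pool.Agent.Helper93.PL.StIrd := by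
  intro ε hε
  obtain ⟨c', C, H0, -, -, h⟩ := hPv ε hε
  obtain ⟨K, hK⟩ := log_le_rpow
  refine ⟨1, max 1 (max H0 K), fun d H hd hH hdH => ?_⟩
  have h1 : 1 ≤ H := (le_max_left _ _).trans hH
  have h2 : H0 ≤ H := ((le_max_left _ _).trans (le_max_right _ _)).trans hH
  have h3 : K ≤ H := ((le_max_right _ _).trans (le_max_right _ _)).trans hH
  have hHp : (0 : ℝ) < H := by exact_mod_cast h1
  have h4 : (d : ℝ) * Real.log H ≤ (H : ℝ) ^ (1 / 3 : ℝ) := by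
    have h5 : (d : ℝ) * Real.log H ≤ (H : ℝ) ^ (1 / 4 : ℝ) * (H : ℝ) ^ (1 / 12 : ℝ) :=
      mul_le_mul hdH (hK H h3) (Real.log_nonneg (by exact_mod_cast h1)) (Real.rpow_nonneg hHp.le _)
    rw [← Real.rpow_add hHp] at h5
    norm_num at h5 ⊢
    exact h5
  have h6 := h H h2 d hd h4
  refine le_trans ?_ h6
  have hfin : Finite {c : Fin (d + 1) → ℤ // c ∈ Bxx d H ∧ NFD c ∧
      ¬ (Irreducible (pol c) ∧ ∃ m : ℕ, IsLeast {m : ℕ | 1 ≤ m ∧ (ev c m).toNat.Prime} m ∧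
        c' * Sz H d ≤ m ∧ (m : ℝ) ≤ C * Sz H d ∧ (m : ℝ) ≤ C * Len c)} := by
    apply Set.Finite.to_subtype
    exact (Bxx d H).finite_toSet.subset (fun c hc => hc.1)
  have h7 : Nat.card {v : Fin (d + 1) → ℤ // v ∈ Bxx d H ∧ NFD v ∧ ¬ Irreducible (pol v)} ≤
      Nat.card {c : Fin (d + 1) → ℤ // c ∈ Bxx d H ∧ NFD c ∧
      ¬ (Irreducible (pol c) ∧ ∃ m : ℕ, IsLeast {m : ℕ | 1 ≤ m ∧ (ev c m).toNat.Prime} m ∧
        c' * Sz H d ≤ m ∧ (m : ℝ) ≤ C * Sz H d ∧ (m : ℝ) ≤ C * Len c)} := by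
    refine Nat.card_le_card_of_injective
      (fun v => ⟨v.1, v.2.1, v.2.2.1, fun hn => v.2.2.2 hn.1⟩) ?_
    intro v w hvw
    exact Subtype.ext (by simpa using congrArg (fun t => t.1) hvw)
  exact_mod_cast h7

end Pool.Agent.Helper78.PL
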